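import Mathlib

/-!
MP_aff17b_co, Q1.  If `s` admits an integer vector `c` with `c_1 = 1` and
`c_j s_{j-1} = c_{j-1} s_j + gcd(s_{j-1}, s_j)`, then the `s`-lecture hall simplex is level.
-/

set_option autoImplicit false

namespace Pool.Agent.Results.MP_aff17b_co.Level

/-! ### Definitions -/

/-- the `s`-lecture hall simplex `0 ≤ x_0/s_0 ≤ x_1/s_1 ≤ … ≤ x_n/s_n ≤ 1` in `ℝ^{n+1}` -/
def lectureHall {n : ℕ} (s : Fin (n + 1) → ℕ) : Set (Fin (n + 1) → ℝ) :=
  {x | 0 ≤ x 0 / s 0 ∧ (∀ i : Fin n, x i.castSucc / s i.castSucc ≤ x i.succ / s i.succ) ∧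
    x (Fin.last n) / s (Fin.last n) ≤ 1}

/-- the cone over `P × {1}` -/
def coneOver {n : ℕ} (P : Set (Fin n → ℝ)) : Set ((Fin n → ℝ) × ℝ) :=
  {z | ∃ r : ℝ, 0 ≤ r ∧ ∃ p ∈ P, z = (r • p, r)}

/-- the integer vector `x` placed at height `h` -/
def lat {n : ℕ} (x : Fin n → ℤ) (h : ℤ) : (Fin n → ℝ) × ℝ := (fun i => (x i : ℝ), (h : ℝ))

/-- `P` is level: if `d₀` is the least height of an interior lattice point of the cone over `P`,
then every interior lattice point is the sum of an interior lattice point of height `d₀` and a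
lattice point of the cone. -/
def IsLevel {n : ℕ} (P : Set (Fin n → ℝ)) : Prop :=
  ∀ d₀ : ℤ, IsLeast {h : ℤ | ∃ u : Fin n → ℤ, lat u h ∈ interior (coneOver P)} d₀ →
    ∀ (x : Fin n → ℤ) (h : ℤ), lat x h ∈ interior (coneOver P) →
      ∃ u v : Fin n → ℤ, lat u d₀ ∈ interior (coneOver P) ∧ lat v (h - d₀) ∈ coneOver P ∧ x = u + v

/-! ### The cone and its interior -/

section

variable {n : ℕ} {s : Fin (n + 1) → ℕ}

theorem chain_nonneg {x : Fin (n + 1) → ℝ} (h0 : 0 ≤ x 0 / s 0)
    (h1 : ∀ i : Fin n, x i.castSucc / s i.castSucc ≤ x i.succ / s i.succ) :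
    ∀ i, 0 ≤ x i / s i := by
  intro i
  induction i using Fin.induction with
  | zero => exact h0
  | succ i ih => exact ih.trans (h1 i)

theorem chain_le {x : Fin (n + 1) → ℝ}
    (h1 : ∀ i : Fin n, x i.castSucc / s i.castSucc ≤ x i.succ / s i.succ) :
    ∀ i, x i / s i ≤ x (Fin.last n) / s (Fin.last n) := by
  intro i
  induction i using Fin.reverseInduction with
  | last => exact le_rfl
  | cast i ih => exact (h1 i).trans ih

theorem mem_cone (hs : ∀ i, 1 ≤ s i) (z : (Fin (n + 1) → ℝ) × ℝ) :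
    z ∈ coneOver (lectureHall s) ↔ 0 ≤ z.1 0 / s 0 ∧
      (∀ i : Fin n, z.1 i.castSucc / s i.castSucc ≤ z.1 i.succ / s i.succ) ∧
      z.1 (Fin.last n) / s (Fin.last n) ≤ z.2 := by
  constructor
  · rintro ⟨r, hr, p, ⟨h0, h1, h2⟩, rfl⟩
    simp only [Pi.smul_apply, smul_eq_mul, mul_div_assoc]
    refine ⟨mul_nonneg hr h0, fun i => mul_le_mul_of_nonneg_left (h1 i) hr, ?_⟩
    have := mul_le_mul_of_nonneg_left h2 hr
    linarith
  · rintro ⟨h0, h1, h2⟩
    have hn := chain_nonneg h0 h1
    have hl := chain_le h1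
    have hz : 0 ≤ z.2 := (hn (Fin.last n)).trans h2
    rcases hz.eq_or_lt with hz0 | hz0
    · refine ⟨0, le_rfl, fun _ => 0, ?_, ?_⟩
      · simp [lectureHall]
      · have hx : ∀ i, z.1 i = 0 := by
          intro i
          have hsi : (0 : ℝ) < s i := by exact_mod_cast hs i
          have e : z.1 i / s i = 0 := le_antisymm (((hl i).trans h2).trans hz0.symm.le) (hn i)
          rcases div_eq_zero_iff.1 e with e | e
          · exact e
          · exact absurd e hsi.ne'
        refine Prod.ext ?_ hz0.symm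
        funext i
        simp [hx i]
    · refine ⟨z.2, hz, z.2⁻¹ • z.1, ?_, ?_⟩
      · have e : ∀ i, (z.2⁻¹ • z.1) i / s i = (z.1 i / s i) / z.2 := fun i => by
          simp only [Pi.smul_apply, smul_eq_mul]
          ring
        refine ⟨?_, fun i => ?_, ?_⟩
        · rw [e]; exact div_nonneg h0 hz
        · rw [e, e]; exact div_le_div_of_nonneg_right (h1 i) hz
        · rw [e, div_le_one hz0]; exact h2
      · refine Prod.ext ?_ rfl
        change z.1 = z.2 • (z.2⁻¹ • z.1)
        rw [smul_smul, mul_inv_cancel₀ hz0.ne', one_smul]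

/-- a point of the interior stays in the cone after a small change of one coordinate -/
theorem exists_perturb {z : (Fin (n + 1) → ℝ) × ℝ}
    (hz : z ∈ interior (coneOver (lectureHall s))) (w : (Fin (n + 1) → ℝ) × ℝ) :
    ∃ ε : ℝ, 0 < ε ∧ z + ε • w ∈ coneOver (lectureHall s) := by
  have hcont : Filter.Tendsto (fun ε : ℝ => z + ε • w) (nhds 0) (nhds (z + (0 : ℝ) • w)) := by
    apply Continuous.tendsto
    fun_prop
  rw [zero_smul, add_zero] at hcont
  have hev := hcont.eventually (isOpen_interior.mem_nhds hz)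
  have hpos : ∀ᶠ ε in nhdsWithin (0 : ℝ) (Set.Ioi 0), z + ε • w ∈ interior (coneOver (lectureHall s)) :=
    hev.filter_mono nhdsWithin_le_nhds
  have hpos2 : ∀ᶠ ε in nhdsWithin (0 : ℝ) (Set.Ioi 0), (0 : ℝ) < ε := self_mem_nhdsWithin
  obtain ⟨ε, h1, h2⟩ := (hpos.and hpos2).exists
  exact ⟨ε, h2, interior_subset h1⟩

theorem mem_interior_cone (hs : ∀ i, 1 ≤ s i) (z : (Fin (n + 1) → ℝ) × ℝ) :
    z ∈ interior (coneOver (lectureHall s)) ↔ 0 < z.1 0 / s 0 ∧
      (∀ i : Fin n, z.1 i.castSucc / s i.castSucc < z.1 i.succ / s i.succ) ∧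
      z.1 (Fin.last n) / s (Fin.last n) < z.2 := by
  have hsp : ∀ i, (0 : ℝ) < s i := fun i => by exact_mod_cast hs i
  constructor
  · intro hz
    refine ⟨?_, fun i => ?_, ?_⟩
    · obtain ⟨ε, he, hm⟩ := exists_perturb hz (-(Pi.single 0 1), 0)
      have := ((mem_cone hs _).1 hm).1
      simp only [Prod.fst_add, Prod.smul_fst, Pi.add_apply, Pi.smul_apply, Pi.neg_apply,
        Pi.single_eq_same, smul_eq_mul, mul_neg, mul_one] at this
      rw [add_div, neg_div] at this
      have h2 : 0 < ε / s 0 := div_pos he (hsp 0)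
      linarith
    · obtain ⟨ε, he, hm⟩ := exists_perturb hz (Pi.single i.castSucc 1, 0)
      have := ((mem_cone hs _).1 hm).2.1 i
      have hne : i.succ ≠ i.castSucc := by
        intro h
        have := congrArg Fin.val h
        simp at this
      simp only [Prod.fst_add, Prod.smul_fst, Pi.add_apply, Pi.smul_apply,
        Pi.single_eq_same, Pi.single_eq_of_ne hne, smul_eq_mul, mul_one, mul_zero, add_zero] at this
      rw [add_div] at this
      have h2 : 0 < ε / s i.castSucc := div_pos he (hsp _)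
      linarith
    · obtain ⟨ε, he, hm⟩ := exists_perturb hz (0, -1)
      have := ((mem_cone hs _).1 hm).2.2
      simp only [Prod.fst_add, Prod.smul_fst, Prod.snd_add, Prod.smul_snd, Pi.add_apply,
        smul_zero, Pi.zero_apply, add_zero, smul_eq_mul, mul_neg, mul_one] at this
      linarith
  · rintro ⟨h0, h1, h2⟩
    let U : Set ((Fin (n + 1) → ℝ) × ℝ) := {z | 0 < z.1 0 / s 0} ∩
      ((⋂ i : Fin n, {z | z.1 i.castSucc / s i.castSucc < z.1 i.succ / s i.succ}) ∩
        {z | z.1 (Fin.last n) / s (Fin.last n) < z.2})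
    have hU : IsOpen U := by
      refine IsOpen.inter ?_ (IsOpen.inter ?_ ?_)
      · exact isOpen_lt (by fun_prop) (by fun_prop)
      · exact isOpen_iInter_of_finite fun i => isOpen_lt (by fun_prop) (by fun_prop)
      · exact isOpen_lt (by fun_prop) (by fun_prop)
    have hsub : U ⊆ coneOver (lectureHall s) := by
      rintro y ⟨y0, y1, y2⟩
      rw [mem_cone hs]
      exact ⟨le_of_lt y0, fun i => le_of_lt (Set.mem_iInter.1 y1 i), le_of_lt y2⟩
    exact interior_maximal hsub hU ⟨h0, Set.mem_iInter.2 h1, h2⟩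

/-! ### Integer description -/

/-- integer points of the cone -/
theorem lat_mem_cone (hs : ∀ i, 1 ≤ s i) (x : Fin (n + 1) → ℤ) (h : ℤ) :
    lat x h ∈ coneOver (lectureHall s) ↔ 0 ≤ x 0 ∧
      (∀ i : Fin n, x i.castSucc * s i.succ ≤ x i.succ * s i.castSucc) ∧
      x (Fin.last n) ≤ h * s (Fin.last n) := by
  have hsp : ∀ i, (0 : ℝ) < s i := fun i => by exact_mod_cast hs i
  rw [mem_cone hs]
  simp only [lat]
  refine and_congr ?_ (and_congr (forall_congr' fun i => ?_) ?_)
  · rw [le_div_iff₀ (hsp 0), zero_mul]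
    exact Int.cast_nonneg_iff
  · rw [div_le_div_iff₀ (hsp _) (hsp _)]
    exact_mod_cast Iff.rfl
  · rw [div_le_iff₀ (hsp _)]
    exact_mod_cast Iff.rfl

/-- integer points of the interior of the cone -/
theorem lat_mem_interior (hs : ∀ i, 1 ≤ s i) (x : Fin (n + 1) → ℤ) (h : ℤ) :
    lat x h ∈ interior (coneOver (lectureHall s)) ↔ 0 < x 0 ∧
      (∀ i : Fin n, x i.castSucc * s i.succ < x i.succ * s i.castSucc) ∧
      x (Fin.last n) < h * s (Fin.last n) := by
  have hsp : ∀ i, (0 : ℝ) < s i := fun i => by exact_mod_cast hs i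
  rw [mem_interior_cone hs]
  simp only [lat]
  refine and_congr ?_ (and_congr (forall_congr' fun i => ?_) ?_)
  · rw [lt_div_iff₀ (hsp 0), zero_mul]
    exact Int.cast_pos
  · rw [div_lt_div_iff₀ (hsp _) (hsp _)]
    exact_mod_cast Iff.rfl
  · rw [div_lt_iff₀ (hsp _)]
    exact_mod_cast Iff.rfl

/-- interior points dominate `c` -/
theorem sub_c {c : Fin (n + 1) → ℤ} (hc0 : c 0 = 1)
    (hc : ∀ i : Fin n, c i.succ * s i.castSucc
      = c i.castSucc * s i.succ + (Nat.gcd (s i.castSucc) (s i.succ) : ℕ))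
    {x : Fin (n + 1) → ℤ} (h0 : 0 < x 0)
    (h1 : ∀ i : Fin n, x i.castSucc * s i.succ < x i.succ * s i.castSucc) :
    0 ≤ x 0 - c 0 ∧ ∀ i : Fin n,
      (x i.castSucc - c i.castSucc) * s i.succ ≤ (x i.succ - c i.succ) * s i.castSucc := by
  refine ⟨by rw [hc0]; omega, fun i => ?_⟩
  have h2 : ((Nat.gcd (s i.castSucc) (s i.succ) : ℕ) : ℤ) ∣
      x i.succ * s i.castSucc - x i.castSucc * s i.succ := by
    apply dvd_sub
    · exact Dvd.dvd.mul_left (by exact_mod_cast Nat.gcd_dvd_left _ _) _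
    · exact Dvd.dvd.mul_left (by exact_mod_cast Nat.gcd_dvd_right _ _) _
  have h3 := Int.le_of_dvd (by have := h1 i; linarith) h2
  have h4 := hc i
  nlinarith

theorem min_chain {a b p q : ℤ} (hp : 0 < p) (hq : 0 < q) (h : a * q ≤ b * p) :
    min a p * q ≤ min b q * p ∧ (a - min a p) * q ≤ (b - min b q) * p := by
  rcases le_total a p with h1 | h1 <;> rcases le_total b q with h2 | h2
  · rw [min_eq_left h1, min_eq_left h2]
    exact ⟨h, by simp⟩
  · rw [min_eq_left h1, min_eq_right h2]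
    constructor
    · nlinarith
    · nlinarith
  · rw [min_eq_right h1, min_eq_left h2]
    constructor
    · nlinarith
    · nlinarith
  · rw [min_eq_right h1, min_eq_right h2]
    constructor
    · exact le_of_eq (mul_comm _ _)
    · nlinarith

/-- One step down: an interior lattice point at height `h > d` is the sum of an interior lattice
point at height `h - 1` and a lattice point of `P`. -/
theorem step (hs : ∀ i, 1 ≤ s i) {c : Fin (n + 1) → ℤ} (hc0 : c 0 = 1)
    (hc : ∀ i : Fin n, c i.succ * s i.castSucc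
      = c i.castSucc * s i.succ + (Nat.gcd (s i.castSucc) (s i.succ) : ℕ))
    {d h : ℤ} (hd : c (Fin.last n) < d * s (Fin.last n)) (hdh : d < h) {x : Fin (n + 1) → ℤ}
    (hx : lat x h ∈ interior (coneOver (lectureHall s))) :
    ∃ y : Fin (n + 1) → ℤ, lat y 1 ∈ coneOver (lectureHall s) ∧
      lat (x - y) (h - 1) ∈ interior (coneOver (lectureHall s)) := by
  have hsp : ∀ i, (0 : ℤ) < s i := fun i => by exact_mod_cast hs i
  obtain ⟨x0, x1, x2⟩ := (lat_mem_interior hs x h).1 hx
  obtain ⟨w0, w1⟩ := sub_c hc0 hc x0 x1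
  have hcpos : ∀ i : Fin n, c i.castSucc * s i.succ < c i.succ * s i.castSucc := by
    intro i
    have h1 := hc i
    have h2 : 0 < Nat.gcd (s i.castSucc) (s i.succ) := Nat.gcd_pos_of_pos_left _ (hs _)
    have h3 : (0 : ℤ) < (Nat.gcd (s i.castSucc) (s i.succ) : ℕ) := by exact_mod_cast h2
    linarith
  refine ⟨fun i => min (x i - c i) (s i), ?_, ?_⟩
  · rw [lat_mem_cone hs]
    refine ⟨le_min w0 (hsp 0).le, fun i => (min_chain (hsp _) (hsp _) (w1 i)).1, ?_⟩
    rw [one_mul]
    exact min_le_right _ _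
  · rw [lat_mem_interior hs]
    refine ⟨?_, fun i => ?_, ?_⟩
    · simp only [Pi.sub_apply]
      have := min_le_left (x 0 - c 0) (s 0 : ℤ)
      omega
    · have h1 := (min_chain (hsp _) (hsp _) (w1 i)).2
      have h2 := hcpos i
      simp only [Pi.sub_apply]
      nlinarith
    · simp only [Pi.sub_apply]
      have hsl := hsp (Fin.last n)
      rcases le_total (x (Fin.last n) - c (Fin.last n)) (s (Fin.last n)) with h1 | h1
      · rw [min_eq_left h1]
        have : d * (s (Fin.last n) : ℤ) ≤ (h - 1) * s (Fin.last n) :=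
          mul_le_mul_of_nonneg_right (by omega) hsl.le
        linarith
      · rw [min_eq_right h1]
        linarith

end

/-- **Positive answer to Q1.** -/
theorem result (n : ℕ) (s : Fin (n + 1) → ℕ) (hs : ∀ i, 1 ≤ s i)
    (hcond : ∃ c : Fin (n + 1) → ℤ, c 0 = 1 ∧ ∀ i : Fin n, c i.succ * s i.castSucc
      = c i.castSucc * s i.succ + (Nat.gcd (s i.castSucc) (s i.succ) : ℕ)) :
    IsLevel (lectureHall s) := by
  obtain ⟨c, hc0, hc⟩ := hcond
  intro d₀ hd₀ x h hx
  obtain ⟨⟨u, hu⟩, hmin⟩ := hd₀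
  have hd : c (Fin.last n) < d₀ * s (Fin.last n) := by
    obtain ⟨u0, u1, u2⟩ := (lat_mem_interior hs u d₀).1 hu
    obtain ⟨w0, w1⟩ := sub_c hc0 hc u0 u1
    have hK : ∀ i : Fin (n + 1), 0 ≤ u i - c i := by
      intro i
      induction i using Fin.induction with
      | zero => exact w0
      | succ i ih =>
        have h2 := w1 i
        have h3 : (0 : ℤ) < s i.castSucc := by exact_mod_cast hs _
        have h4 : (0 : ℤ) < s i.succ := by exact_mod_cast hs _
        by_contra hneg
        push Not at hneg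
        nlinarith
    have := hK (Fin.last n)
    linarith
  -- induction on h - d₀
  have key : ∀ k : ℕ, ∀ x : Fin (n + 1) → ℤ, lat x (d₀ + k) ∈ interior (coneOver (lectureHall s)) →
      ∃ u v : Fin (n + 1) → ℤ, lat u d₀ ∈ interior (coneOver (lectureHall s)) ∧
        lat v k ∈ coneOver (lectureHall s) ∧ x = u + v := by
    intro k
    induction k with
    | zero =>
      intro x hx
      refine ⟨x, 0, by simpa using hx, ?_, by simp⟩
      rw [lat_mem_cone hs]
      simp
    | succ k ih =>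
      intro x hx
      obtain ⟨y, hy, hxy⟩ := step hs hc0 hc hd (h := d₀ + ((k + 1 : ℕ) : ℤ))
        (by push_cast; omega) hx
      have e : d₀ + ((k + 1 : ℕ) : ℤ) - 1 = d₀ + k := by push_cast; ring
      rw [e] at hxy
      obtain ⟨u, v, hu, hv, huv⟩ := ih _ hxy
      refine ⟨u, v + y, hu, ?_, ?_⟩
      · rw [lat_mem_cone hs] at hv hy ⊢
        obtain ⟨v0, v1, v2⟩ := hv
        obtain ⟨y0, y1, y2⟩ := hy
        simp only [Pi.add_apply]
        refine ⟨by omega, fun i => by have := v1 i; have := y1 i; nlinarith, ?_⟩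
        push_cast
        nlinarith
      · rw [← add_assoc, ← huv]
        simp
  have hle : d₀ ≤ h := hmin ⟨x, hx⟩
  obtain ⟨k, hk⟩ := Int.eq_ofNat_of_zero_le (sub_nonneg.2 hle)
  have hk' : h = d₀ + k := by linarith
  obtain ⟨u, v, h1, h2, h3⟩ := key k x (by rw [← hk']; exact hx)
  exact ⟨u, v, h1, by rw [hk]; exact h2, h3⟩

end Pool.Agent.Results.MP_aff17b_co.Level
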